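import Mathlib
import Pool.Agent.R343.LW1

set_option autoImplicit false

/-!
# Hall's conjecture, with exponents below his, for integers with compressible digits

A word of letters is cut into `z` phrases (`LZ a N z`, Lempel and Ziv) if each phrase is a single
letter, or a (possibly empty) copy of a block that begins further to the left; the block may
overlap the phrase. For instance the word `u v ^ m w` has a number of phrases which does not depend
on `m`.

1. Let `b, c ≥ 2` and `z` be given. There are `δ > 0` and `C` such that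
   `|x| ≤ C |k| ^ (2 - δ)` and `|y| ≤ C |k| ^ (3 - δ)` for all `k ≠ 0` and all integers `x`, `y` with
   `y ^ 2 = x ^ 3 + k` such that the digits of `x` in base `b` and the digits of `y` in base `c`, each
   read upwards or downwards, form words with `z` phrases. So `max (|x|, |y|) ≤ C |k| ^ (3 - δ)`; the
   exponent is below the one in Hall's conjecture. There is no restriction on the lengths of the
   phrases and of their periods.

2. More generally, for `p, q ≥ 1` and `y ^ q ≠ x ^ p`,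
   `max (|x| ^ p, |y| ^ q) ^ (1 - 1 / p - 1 / q + δ) ≤ K |y ^ q - x ^ p|`, also for numbers which are
   sums of `r` products `g w`, `g` in a finitely generated group `Γ` of rational numbers, `w` the value
   of a word with `z` phrases of integral letters of absolute value at most `B` and of length `N`,
   `N log b ≤ M (1 + log max (|x| ^ p, |y| ^ q))`.

The proof: if no period of a phrase has a size between `δ' N` and `δ N`, then a product `D` of
numbers `b ^ π - 1` with `log D` at most a small multiple of `N` makes `D x` and `D y` sums of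
boundedly many powers with small coefficients. The inequality with an exponent below Hall's for
such sums (ExponentBelowThree), applied to `D ^ q x` and `D ^ p y`, gains a power of the size, which
depends on the number of terms but not on the scale `δ'`, so it absorbs `D` for `δ'` small. One of
finitely many scales works.
-/

namespace Pool.Agent.Results.MP_f2148a_nt.LempelZivPairs

open Finset Pool.Agent.R343.LP Pool.Agent.R343.LT

theorem digits (b c z p q : ℕ) (hb : 2 ≤ b) (hc : 2 ≤ c) (hp : 1 ≤ p) (hq : 1 ≤ q) :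
    ∃ δ : ℝ, 0 < δ ∧ ∃ K : ℝ, 0 < K ∧ ∀ x y : ℤ, y ^ q ≠ x ^ p →
      LZDigits b z x → LZDigits c z y →
      (max (|(x : ℝ)| ^ p) (|(y : ℝ)| ^ q)) ^ (1 - 1 / (p : ℝ) - 1 / (q : ℝ) + δ) ≤
        K * |(y : ℝ) ^ q - (x : ℝ) ^ p| := by
  have hlb : 0 ≤ Real.log b := Real.log_nonneg (by
    have : 1 ≤ b := by omega
    exact_mod_cast this)
  have hlc : 0 ≤ Real.log c := Real.log_nonneg (by
    have : 1 ≤ c := by omega
    exact_mod_cast this)
  obtain ⟨δ, hδ, K, hK, h⟩ := hallBelowLZ p q 1 hp hq ⊥ ⟨∅, by simp⟩ (fun _ => b) (fun _ => c)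
    (fun _ => hb) (fun _ => hc) z (b + c : ℕ) (Int.natCast_nonneg _) (1 + Real.log b + Real.log c)
    (by positivity)
  refine ⟨δ, hδ, K, hK, fun x y hne hx hy => ?_⟩
  have hZ1 := one_le_max hp hq hne
  have hlZ : 0 ≤ Real.log (max (|(x : ℝ)| ^ p) (|(y : ℝ)| ^ q)) := Real.log_nonneg hZ1
  have hle : ∀ (t : ℤ) (n : ℕ), 1 ≤ n → |(t : ℝ)| ^ n ≤ max (|(x : ℝ)| ^ p) (|(y : ℝ)| ^ q) →
      Real.log (max 1 |(t : ℝ)|) ≤ Real.log (max (|(x : ℝ)| ^ p) (|(y : ℝ)| ^ q)) := by
    intro t n hn ht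
    refine Real.log_le_log (by positivity) (max_le hZ1 ?_)
    by_cases h0 : t = 0
    · rw [h0, Int.cast_zero, abs_zero]
      linarith
    · have h1 : (1 : ℝ) ≤ |(t : ℝ)| := by exact_mod_cast Int.one_le_abs h0
      exact (le_self_pow₀ h1 (by omega)).trans ht
  refine h x y hne (CompR.ofDigits hb (Nat.le_add_right _ _) hx ?_)
    (CompR.ofDigits hc (Nat.le_add_left _ _) hy ?_)
  · have h1 := hle x p hp (le_max_left _ _)
    nlinarith [mul_nonneg hlb hlZ, mul_nonneg hlc hlZ]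
  · have h1 := hle y q hq (le_max_right _ _)
    nlinarith [mul_nonneg hlb hlZ, mul_nonneg hlc hlZ]

/-- The result: (1) Mordell's equation, digits, (2) digits, `y ^ q - x ^ p`, (3) sums of products of
elements of `Γ` and values of words. -/
theorem result :
    (∀ b c z : ℕ, 2 ≤ b → 2 ≤ c → ∃ δ C : ℝ, 0 < δ ∧ ∀ k x y : ℤ, k ≠ 0 → y ^ 2 = x ^ 3 + k →
      LZDigits b z x → LZDigits c z y →
      |(x : ℝ)| ≤ C * |(k : ℝ)| ^ (2 - δ) ∧ |(y : ℝ)| ≤ C * |(k : ℝ)| ^ (3 - δ)) ∧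
    (∀ b c z p q : ℕ, 2 ≤ b → 2 ≤ c → 1 ≤ p → 1 ≤ q →
      ∃ δ : ℝ, 0 < δ ∧ ∃ K : ℝ, 0 < K ∧ ∀ x y : ℤ, y ^ q ≠ x ^ p →
        LZDigits b z x → LZDigits c z y →
        (max (|(x : ℝ)| ^ p) (|(y : ℝ)| ^ q)) ^ (1 - 1 / (p : ℝ) - 1 / (q : ℝ) + δ) ≤
          K * |(y : ℝ) ^ q - (x : ℝ) ^ p|) ∧
    (∀ p q r : ℕ, 1 ≤ p → 1 ≤ q → ∀ Γ : Subgroup ℚˣ, Γ.FG → ∀ b b' : Fin r → ℕ,
      (∀ i, 2 ≤ b i) → (∀ i, 2 ≤ b' i) → ∀ (z : ℕ) (B : ℤ), 0 ≤ B → ∀ M : ℝ, 0 ≤ M →
      ∃ δ : ℝ, 0 < δ ∧ ∃ K : ℝ, 0 < K ∧ ∀ x y : ℤ, y ^ q ≠ x ^ p →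
        CompR Γ b z B (M * (1 + Real.log (max (|(x : ℝ)| ^ p) (|(y : ℝ)| ^ q)))) x →
        CompR Γ b' z B (M * (1 + Real.log (max (|(x : ℝ)| ^ p) (|(y : ℝ)| ^ q)))) y →
        (max (|(x : ℝ)| ^ p) (|(y : ℝ)| ^ q)) ^ (1 - 1 / (p : ℝ) - 1 / (q : ℝ) + δ) ≤
          K * |(y : ℝ) ^ q - (x : ℝ) ^ p|) := by
  refine ⟨fun b c z hb hc => ?_, fun b c z p q hb hc hp hq => digits b c z p q hb hc hp hq,
    fun p q r hp hq Γ hΓ b b' hb hb' z B hB M hM =>
      hallBelowLZ p q r hp hq Γ hΓ b b' hb hb' z B hB M hM⟩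
  obtain ⟨δ, hδ, K, hK, h⟩ := digits b c z 3 2 hb hc (by norm_num) (by norm_num)
  refine ⟨12 * δ / (1 + 6 * δ), (max K 1) ^ (3 : ℝ), by positivity, ?_⟩
  intro k x y hk hxy hx hy
  have hne : y ^ 2 ≠ x ^ 3 := by
    rw [hxy]
    intro h2
    apply hk
    linarith
  obtain ⟨h1, h2⟩ := mordellBelow hδ hK hk hxy (h x y hne hx hy)
  refine ⟨h1.trans ?_, h2⟩
  refine mul_le_mul_of_nonneg_right ?_ (Real.rpow_nonneg (abs_nonneg _) _)
  exact Real.rpow_le_rpow_of_exponent_le (le_max_right _ _) (by norm_num)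

end Pool.Agent.Results.MP_f2148a_nt.LempelZivPairs
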