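import Pool.Agent.R728.RC.Hall

/-!
# Hall's conjecture for Mordell's equation and congruences to random residues

Let `𝓜` be a set of moduli with `∑ m ^ (-s) < ∞` (the squareful numbers for `s > 1 / 2`, which
contain the powers `p ^ k`, `k ≥ 2`, of all primes; the powers of one number for `s > 0`), and let
`X m` be random residues modulo `m`, each value of which has probability at most `A m ^ (-θ)`,
`θ > s`. No independence is assumed: for instance the residues of a random profinite integer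
(`θ = 1`), of a random point of a Cantor set of `p`-adic integers of dimension `θ`, or of `[m α]`.
Let `φ m` be any maps from the pairs of integers to the residues modulo `m`. Almost surely, for all
`τ > 1 / (3 (θ - s))` there is `C` such that `max (|x|, |y|) ≤ C |k| ^ 3` for ALL `k ≠ 0` and all
integral solutions of `y ^ 2 = x ^ 3 + k` with `φ m (x, y) = X m` for some `m ≥ |x| ^ τ` in `𝓜`,
for example `x ≡ X m` or `y ≡ X m` modulo `m`.
-/

set_option autoImplicit false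

namespace Pool.Agent.Results.MP_f2148a_nt.RandomResidues

open MeasureTheory

/-- every prime dividing `m` divides it at least twice -/
def Squareful (m : ℕ) : Prop := 0 < m ∧ ∀ p : ℕ, p.Prime → p ∣ m → p ^ 2 ∣ m

/-- from `c |x| ^ (1 / 2) < |k|` to Hall's inequality -/
lemma hall_of_half {c : ℝ} (hc : 0 < c) {k x y : ℤ} (hk : k ≠ 0) (hxy : y ^ 2 = x ^ 3 + k)
    (h : c * |(x : ℝ)| ^ ((1 : ℝ) / 2) < |(k : ℝ)|) :
    max |(x : ℝ)| |(y : ℝ)| ≤ (1 / c ^ 2 + 1 / c ^ 3 + 1) * |(k : ℝ)| ^ 3 := by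
  have hk1 : (1 : ℝ) ≤ |(k : ℝ)| := by exact_mod_cast Int.one_le_abs hk
  set K := |(k : ℝ)| with hK
  set a := |(x : ℝ)| with ha
  have ha0 : 0 ≤ a := abs_nonneg _
  have h1 : c * Real.sqrt a < K := by
    rw [Real.sqrt_eq_rpow]
    exact h
  have h2 : Real.sqrt a < K / c := by
    rw [lt_div_iff₀ hc]
    linarith
  have hs0 := Real.sqrt_nonneg a
  have hsq : Real.sqrt a ^ 2 = a := Real.sq_sqrt ha0
  have h3 : a ≤ (K / c) ^ 2 := by
    rw [← hsq]
    exact pow_le_pow_left₀ hs0 h2.le 2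
  have hK23 : K ^ 2 ≤ K ^ 3 := pow_le_pow_right₀ hk1 (by norm_num)
  have hK3 : 0 ≤ K ^ 3 := by positivity
  have hc2 : (0 : ℝ) < 1 / c ^ 2 := by positivity
  have hc3 : (0 : ℝ) < 1 / c ^ 3 := by positivity
  refine max_le ?_ ?_
  · calc a ≤ (K / c) ^ 2 := h3
      _ = 1 / c ^ 2 * K ^ 2 := by rw [div_pow]; ring
      _ ≤ 1 / c ^ 2 * K ^ 3 := mul_le_mul_of_nonneg_left hK23 hc2.le
      _ ≤ _ := mul_le_mul_of_nonneg_right (by linarith) hK3
  · -- `y ^ 2 ≤ a ^ 3 + K ≤ (K / c) ^ 6 + K ^ 6`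
    have h4 : (y : ℝ) ^ 2 = (x : ℝ) ^ 3 + k := by exact_mod_cast hxy
    have h5 : (y : ℝ) ^ 2 ≤ a ^ 3 + K := by
      rw [h4]
      have h6 : (x : ℝ) ^ 3 ≤ a ^ 3 := by
        rw [ha, ← abs_pow]
        exact le_abs_self _
      have h7 : (k : ℝ) ≤ K := le_abs_self _
      linarith
    have h6 : a ^ 3 ≤ (1 / c ^ 3 * K ^ 3) ^ 2 := by
      calc a ^ 3 ≤ ((K / c) ^ 2) ^ 3 := pow_le_pow_left₀ ha0 h3 3
        _ = (1 / c ^ 3 * K ^ 3) ^ 2 := by rw [div_pow]; ring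
    have h7 : K ≤ (K ^ 3) ^ 2 := by
      calc K = K ^ 1 := (pow_one K).symm
        _ ≤ K ^ 6 := pow_le_pow_right₀ hk1 (by norm_num)
        _ = (K ^ 3) ^ 2 := by ring
    have h8 : 0 ≤ 1 / c ^ 3 * K ^ 3 := by positivity
    have h9 : |(y : ℝ)| ^ 2 ≤ ((1 / c ^ 3 + 1) * K ^ 3) ^ 2 := by
      rw [sq_abs]
      nlinarith
    have h10 : |(y : ℝ)| ≤ (1 / c ^ 3 + 1) * K ^ 3 :=
      (pow_le_pow_iff_left₀ (abs_nonneg _) (by positivity) (by norm_num)).1 h9
    exact h10.trans (mul_le_mul_of_nonneg_right (by linarith) hK3)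

/-- **Theorem.** Let `𝓜` be a set of positive integers with a convergent sum of the `m ^ (-s)`, and
`X m` random residues modulo `m`, each value of which has probability at most `A m ^ (-θ)`, where
`s < θ` (no independence is assumed), and `φ m` any maps from the pairs of integers to the residues
modulo `m`. Almost surely, for all `τ` with `1 / 3 < (θ - s) τ` there is `C` such that
`max (|x|, |y|) ≤ C |k| ^ 3` for all `m` in `𝓜`, all integers `k ≠ 0` and all integers `x`, `y` with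
`y ^ 2 = x ^ 3 + k`, `|x| ^ τ ≤ m` and `φ m (x, y) = X m`.

The sum of the `m ^ (-s)` over the squareful numbers converges for `s > 1 / 2`, and that over
the powers of an integer `b ≥ 2` for `s > 0`. -/
theorem result :
    (∀ (𝓜 : Set ℕ) (s θ A : ℝ) (Ω : Type) [MeasurableSpace Ω] (P : Measure Ω)
      (X : ∀ m : ℕ, Ω → ZMod m) (φ : ∀ m : ℕ, ℤ × ℤ → ZMod m),
      (∀ m ∈ 𝓜, 0 < m) → s < θ → (Summable fun m : 𝓜 => ((m : ℕ) : ℝ) ^ (-s)) →
      (∀ m ∈ 𝓜, ∀ r : ZMod m, P {ω | X m ω = r} ≤ ENNReal.ofReal (A * (m : ℝ) ^ (-θ))) →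
      ∀ᵐ ω ∂P, ∀ τ : ℝ, 1 / 3 < (θ - s) * τ →
        ∃ C : ℝ, ∀ m ∈ 𝓜, ∀ k x y : ℤ, k ≠ 0 → y ^ 2 = x ^ 3 + k →
          |(x : ℝ)| ^ τ ≤ m → φ m (x, y) = X m ω →
          max |(x : ℝ)| |(y : ℝ)| ≤ C * |(k : ℝ)| ^ 3) ∧
    (∀ s : ℝ, 1 / 2 < s → Summable fun m : {m : ℕ | Squareful m} => ((m : ℕ) : ℝ) ^ (-s)) ∧
    ∀ b : ℕ, 2 ≤ b → ∀ s : ℝ, 0 < s →
      Summable fun m : {m : ℕ | ∃ k : ℕ, m = b ^ k} => ((m : ℕ) : ℝ) ^ (-s) := by
  refine ⟨fun 𝓜 s θ A Ω _ P X φ h0 hs hsum hX => ?_, fun s hs => ?_, fun b hb s hs => ?_⟩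
  · filter_upwards [Pool.Agent.R728.RC.Hall.const_all (φ := φ) h0 hs hsum hX] with ω h1 τ hτ
    obtain ⟨c, hc, h6⟩ := h1 0 τ le_rfl (by norm_num) (by linarith)
    refine ⟨1 / c ^ 2 + 1 / c ^ 3 + 1, fun m hm k x y hk hxy hxm hφ => ?_⟩
    have hne : y ^ 2 ≠ x ^ 3 := by
      intro h
      rw [h] at hxy
      exact hk (by linarith)
    have h7 := h6 m hm x y hne hxm hφ
    have hdd : (y : ℝ) ^ 2 - (x : ℝ) ^ 3 = (k : ℝ) := by
      have : (y : ℝ) ^ 2 = (x : ℝ) ^ 3 + k := by exact_mod_cast hxy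
      rw [this]
      ring
    rw [hdd, sub_zero] at h7
    exact hall_of_half hc hk hxy h7
  · exact Pool.Agent.R728.RC.summable_squareful hs
  · exact Pool.Agent.R728.RC.summable_powers hb hs

end Pool.Agent.Results.MP_f2148a_nt.RandomResidues
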