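import Pool.Agent.R909.RSHall

/-!
# Hall's conjecture for Mordell's equation in random sets of integers

Let `A`, `A'` be random sets of integers such that `x ∈ A` and `y ∈ A'` with probability at most
`C₀ |x| ^ (-γ) |y| ^ (-γ')`, for instance because the elements of `A` and `A'` are chosen
independently with the probabilities `|x| ^ (-γ)` and `|y| ^ (-γ')`. If `γ + 3 γ' / 2 > 1 / 3`, almost
surely there is `C` such that `max (|x|, |y|) ≤ C |k| ^ 3` for ALL `k ≠ 0` and all solutions of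
`y ^ 2 = x ^ 3 + k` with `x ∈ A` and `y ∈ A'`.
-/

set_option autoImplicit false

namespace Pool.Agent.Results.MP_f2148a_nt.RandomSets

open MeasureTheory

/-- the integers `x`, `y` belong to the random sets `A`, `A'` with probability at most
`C * |x| ^ (-γ) * |y| ^ (-γ')` -/
def Sparse {Ω : Type} [MeasurableSpace Ω] (P : Measure Ω) (A A' : Ω → Set ℤ) (γ γ' C : ℝ) : Prop :=
  ∀ x y : ℤ, x ≠ 0 → y ≠ 0 →
    P {ω | x ∈ A ω ∧ y ∈ A' ω} ≤ ENNReal.ofReal (C * |(x : ℝ)| ^ (-γ) * |(y : ℝ)| ^ (-γ'))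

/-- from `c |x| ^ (1 / 2) < |k|` to Hall's inequality -/
lemma hall_of_half {c : ℝ} (hc : 0 < c) {k x y : ℤ} (hk : k ≠ 0) (hxy : y ^ 2 = x ^ 3 + k)
    (h : c * |(x : ℝ)| ^ ((1 : ℝ) / 2) < |(k : ℝ)|) :
    max |(x : ℝ)| |(y : ℝ)| ≤ (1 / c ^ 2 + 1 / c ^ 3 + 1) * |(k : ℝ)| ^ 3 := by
  have hk1 : (1 : ℝ) ≤ |(k : ℝ)| := by exact_mod_cast Int.one_le_abs hk
  set K := |(k : ℝ)| with hK
  set a := |(x : ℝ)| with ha
  have ha0 : 0 ≤ a := abs_nonneg _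
  have h1 : c * Real.sqrt a < K := by
    rw [Real.sqrt_eq_rpow]
    exact h
  have h2 : Real.sqrt a < K / c := by
    rw [lt_div_iff₀ hc]
    linarith
  have hs0 := Real.sqrt_nonneg a
  have hsq : Real.sqrt a ^ 2 = a := Real.sq_sqrt ha0
  have h3 : a ≤ (K / c) ^ 2 := by
    rw [← hsq]
    exact pow_le_pow_left₀ hs0 h2.le 2
  have hK23 : K ^ 2 ≤ K ^ 3 := pow_le_pow_right₀ hk1 (by norm_num)
  have hK3 : 0 ≤ K ^ 3 := by positivity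
  have hc2 : (0 : ℝ) < 1 / c ^ 2 := by positivity
  have hc3 : (0 : ℝ) < 1 / c ^ 3 := by positivity
  refine max_le ?_ ?_
  · calc a ≤ (K / c) ^ 2 := h3
      _ = 1 / c ^ 2 * K ^ 2 := by rw [div_pow]; ring
      _ ≤ 1 / c ^ 2 * K ^ 3 := mul_le_mul_of_nonneg_left hK23 hc2.le
      _ ≤ _ := mul_le_mul_of_nonneg_right (by linarith) hK3
  · -- `y ^ 2 ≤ a ^ 3 + K ≤ (K / c) ^ 6 + K ^ 6`
    have h4 : (y : ℝ) ^ 2 = (x : ℝ) ^ 3 + k := by exact_mod_cast hxy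
    have h5 : (y : ℝ) ^ 2 ≤ a ^ 3 + K := by
      rw [h4]
      have h6 : (x : ℝ) ^ 3 ≤ a ^ 3 := by
        rw [ha, ← abs_pow]
        exact le_abs_self _
      have h7 : (k : ℝ) ≤ K := le_abs_self _
      linarith
    have h6 : a ^ 3 ≤ (1 / c ^ 3 * K ^ 3) ^ 2 := by
      calc a ^ 3 ≤ ((K / c) ^ 2) ^ 3 := pow_le_pow_left₀ ha0 h3 3
        _ = (1 / c ^ 3 * K ^ 3) ^ 2 := by rw [div_pow]; ring
    have h7 : K ≤ (K ^ 3) ^ 2 := by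
      calc K = K ^ 1 := (pow_one K).symm
        _ ≤ K ^ 6 := pow_le_pow_right₀ hk1 (by norm_num)
        _ = (K ^ 3) ^ 2 := by ring
    have h8 : 0 ≤ 1 / c ^ 3 * K ^ 3 := by positivity
    have h9 : |(y : ℝ)| ^ 2 ≤ ((1 / c ^ 3 + 1) * K ^ 3) ^ 2 := by
      rw [sq_abs]
      nlinarith
    have h10 : |(y : ℝ)| ≤ (1 / c ^ 3 + 1) * K ^ 3 :=
      (pow_le_pow_iff_left₀ (abs_nonneg _) (by positivity) (by norm_num)).1 h9
    exact h10.trans (mul_le_mul_of_nonneg_right (by linarith) hK3)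

/-- **Theorem.** Let `A`, `A'` be random sets of integers such that `x ∈ A` and `y ∈ A'` with
probability at most `C₀ |x| ^ (-γ) |y| ^ (-γ')`, for all `x, y ≠ 0`, where `γ' ≥ 0` and
`γ + 3 γ' / 2 > 1 / 3`.

(1) Almost surely there is `C` such that `max (|x|, |y|) ≤ C |k| ^ 3` for all integers `k ≠ 0` and all
`x ∈ A`, `y ∈ A'` with `y ^ 2 = x ^ 3 + k`.

(2) Almost surely, for every `c > 0` only finitely many `x ∈ A`, `y ∈ A'` with `y ^ 2 ≠ x ^ 3` have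
`|y ^ 2 - x ^ 3| ≤ c |x| ^ (1 / 2)`.

(3) If `1 / 3 + η < γ + 3 γ' / 2`, `η ≥ 0`, then for every `c` there is `B` such that the probability
that some `x ∈ A` and `y ∈ A'`, `y ≠ 0`, `|x| ≥ X`, satisfy `0 < |y ^ 2 - x ^ 3| ≤ c |x| ^ (1 / 2)`
is at most `B X ^ (-η)`, for all `X ≥ 1`. -/
theorem result (Ω : Type) [MeasurableSpace Ω] (P : Measure Ω) (A A' : Ω → Set ℤ) (γ γ' C₀ : ℝ)
    (hA : Sparse P A A' γ γ' C₀) (hγ' : 0 ≤ γ') (h : 1 / 3 < γ + 3 / 2 * γ') :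
    (∀ᵐ ω ∂P, ∃ C : ℝ, ∀ k x y : ℤ, k ≠ 0 → x ∈ A ω → y ∈ A' ω → y ^ 2 = x ^ 3 + k →
      max |(x : ℝ)| |(y : ℝ)| ≤ C * |(k : ℝ)| ^ 3) ∧
    (∀ᵐ ω ∂P, ∀ c : ℝ, {e : ℤ × ℤ | e.1 ∈ A ω ∧ e.2 ∈ A' ω ∧ e.2 ^ 2 ≠ e.1 ^ 3 ∧
      |(e.2 : ℝ) ^ 2 - (e.1 : ℝ) ^ 3| ≤ c * |(e.1 : ℝ)| ^ (1 / 2 : ℝ)}.Finite) ∧
    (∀ c η : ℝ, 0 ≤ η → 1 / 3 + η < γ + 3 / 2 * γ' → ∃ B : ℝ, ∀ X : ℝ, 1 ≤ X →
      P {ω | ∃ x ∈ A ω, ∃ y ∈ A' ω, y ≠ 0 ∧ X ≤ |(x : ℝ)| ∧ y ^ 2 ≠ x ^ 3 ∧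
        |(y : ℝ) ^ 2 - (x : ℝ) ^ 3| ≤ c * |(x : ℝ)| ^ (1 / 2 : ℝ)} ≤
        ENNReal.ofReal (B * X ^ (-η))) := by
  refine ⟨?_, ?_, fun c η hη h1 => ?_⟩
  · filter_upwards [Pool.Agent.R909.RSHall.const_all hA hγ'] with ω h1
    obtain ⟨c, hc, h6⟩ := h1 0 le_rfl (by norm_num) (by linarith)
    refine ⟨1 / c ^ 2 + 1 / c ^ 3 + 1, fun k x y hk hx hy hxy => ?_⟩
    have hne : y ^ 2 ≠ x ^ 3 := by
      intro h
      rw [h] at hxy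
      exact hk (by linarith)
    have h7 := h6 x hx y hy hne
    have hdd : (y : ℝ) ^ 2 - (x : ℝ) ^ 3 = (k : ℝ) := by
      have : (y : ℝ) ^ 2 = (x : ℝ) ^ 3 + k := by exact_mod_cast hxy
      rw [this]
      ring
    rw [hdd, sub_zero] at h7
    exact hall_of_half hc hk hxy h7
  · filter_upwards [Pool.Agent.R909.RSHall.fin_all hA hγ'] with ω h1 c
    refine (h1 c 0 le_rfl (by norm_num) (by linarith)).subset ?_
    rintro e ⟨h2, h3, h4, h5⟩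
    refine ⟨h2, h3, h4, ?_⟩
    rw [sub_zero]
    exact h5
  · obtain ⟨B, hB⟩ := (Pool.Agent.R909.RSHall.one hA hγ' c (δ := 0) (η := η) le_rfl (by norm_num)
      hη (by linarith)).2
    refine ⟨B, fun X hX => (measure_mono ?_).trans (hB X hX)⟩
    rintro ω ⟨x, hx, y, hy, hy0, hX1, h2, h3⟩
    refine ⟨(x, y), ⟨⟨h2, ?_⟩, hy0⟩, hX1, hx, hy⟩
    rw [sub_zero]
    exact h3

end Pool.Agent.Results.MP_f2148a_nt.RandomSets
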