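import Pool.Agent.Results.MP_f2148a_nt.AlmostAllK
import Pool.Agent.R482.ST.Star

/-!
# Mordell's equation `y ^ 2 = x ^ 3 + k` for all `k` near powers, orbits and other sequences

Let `f_n`, `n = 0, 1, 2, …`, be positive functions on `(a, ∞)`, `a ≥ 0`, such that `f_n(t) / t` is nondecreasing, and such
that the sequence `f_n(t)` has exponent of convergence at most `τ` for each `t > a`: for instance `f_n(t) = t ^ (v_n)` for
exponents `v_n ≥ 1` (`τ = 0`; all powers, the powers `t ^ (3 ^ n)` of Mills, …), the orbits `f_n(t) = g (g (⋯ g (t)))` of any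
map `g` with `g(t) > t` and `g(t) / t` nondecreasing (`τ = 0`; for instance of `t² + c`), and `f_n(t) = v_n t`.
Let `θ < 1`. For all `α > a` outside a set of Hausdorff dimension at most `(99 / 100 + τ) / (1 - θ)`, each `c` and all but
finitely many `n`, for ALL integers `k ≠ 0` with `||k| - f_n(α)| ≤ c f_n(α) ^ θ` the equation `y ^ 2 = x ^ 3 + k` has no
solution in integers with `|x| ≤ exp (|k| ^ (1 / 10000))`.
-/

set_option autoImplicit false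

namespace Pool.Agent.Results.MP_f2148a_nt.StarshapedMordell

/-- the functions `f n` are positive on `(a, ∞)`, `a ≥ 0`, and `f n x / x` is nondecreasing there -/
def Starshaped (a : ℝ) (f : ℕ → ℝ → ℝ) : Prop :=
  0 ≤ a ∧ ∀ n : ℕ, ∀ x y : ℝ, a < x → x ≤ y → 0 < f n x ∧ f n x / x ≤ f n y / y

/-- for each `x > a` the exponent of convergence of the sequence `f n x` is at most `τ` -/
def ExpLe (a : ℝ) (f : ℕ → ℝ → ℝ) (τ : ℝ) : Prop :=
  ∀ x : ℝ, a < x → ∀ t : ℝ, τ < t → Summable (fun n : ℕ => (f n x) ^ (-t))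

/-- the `k` with an integral point which is not extremely large -/
def Exc : Set ℤ := {k : ℤ | k ≠ 0 ∧ ∃ x y : ℤ, y ^ 2 = x ^ 3 + k ∧
  |(x : ℝ)| ≤ Real.exp (|(k : ℝ)| ^ ((1 : ℝ) / 10000))}

lemma count (ε : ℝ) (hε : 0 < ε) : ∃ C : ℝ, ∀ X : ℝ, 1 ≤ X →
    {k | k ∈ Exc ∧ |(k : ℝ)| ≤ X}.Finite ∧
      ({k | k ∈ Exc ∧ |(k : ℝ)| ≤ X}.ncard : ℝ) ≤ C * X ^ (99 / 100 + ε) := by
  obtain ⟨M, hM⟩ := AlmostAllK.result
  refine ⟨|M|, fun X hX => ?_⟩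
  have hX0 : 0 < X := by linarith
  have hb : ∀ P : ℤ → Prop, {k : ℤ | P k ∧ |(k : ℝ)| ≤ X}.Finite := by
    intro P
    refine (Set.finite_Icc (-⌊X⌋) ⌊X⌋).subset ?_
    rintro k ⟨-, h1⟩
    rw [abs_le] at h1
    rw [Set.mem_Icc]
    constructor
    · rw [neg_le]
      apply Int.le_floor.2
      push_cast
      linarith [h1.1]
    · exact Int.le_floor.2 h1.2
  refine ⟨hb _, ?_⟩
  have hfin : {k : ℤ | k ≠ 0 ∧ |(k : ℝ)| ≤ X ∧ ∃ x y : ℤ, y ^ 2 = x ^ 3 + k ∧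
      |(x : ℝ)| ≤ Real.exp (X ^ ((1 : ℝ) / 10000))}.Finite :=
    (hb (fun _ => True)).subset fun k hk => ⟨trivial, hk.2.1⟩
  have hsub : {k | k ∈ Exc ∧ |(k : ℝ)| ≤ X} ⊆ {k : ℤ | k ≠ 0 ∧ |(k : ℝ)| ≤ X ∧ ∃ x y : ℤ, y ^ 2 = x ^ 3 + k ∧
      |(x : ℝ)| ≤ Real.exp (X ^ ((1 : ℝ) / 10000))} := by
    rintro k ⟨⟨h1, x, y, h2, h3⟩, h4⟩
    refine ⟨h1, h4, x, y, h2, h3.trans (Real.exp_le_exp.2 ?_)⟩
    exact Real.rpow_le_rpow (abs_nonneg _) h4 (by norm_num)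
  calc ({k | k ∈ Exc ∧ |(k : ℝ)| ≤ X}.ncard : ℝ) ≤ ({k : ℤ | k ≠ 0 ∧ |(k : ℝ)| ≤ X ∧ ∃ x y : ℤ, y ^ 2 = x ^ 3 + k ∧
      |(x : ℝ)| ≤ Real.exp (X ^ ((1 : ℝ) / 10000))}.ncard : ℝ) := by
        exact_mod_cast Set.ncard_le_ncard hsub hfin
    _ ≤ M * X ^ ((99 : ℝ) / 100) := hM X hX
    _ ≤ |M| * X ^ ((99 : ℝ) / 100) := mul_le_mul_of_nonneg_right (le_abs_self M) (by positivity)
    _ ≤ |M| * X ^ (99 / 100 + ε) := by
        apply mul_le_mul_of_nonneg_left _ (abs_nonneg M)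
        exact Real.rpow_le_rpow_of_exponent_le hX (by linarith)

/-- **Theorem.** Let `f` be starshaped functions on `(a, ∞)` of exponent of convergence at most `τ ≥ 0` and `θ < 1`. There is a
set `E` of Hausdorff dimension at most `(99 / 100 + τ) / (1 - θ)` such that for each `α > a` outside `E`, each `c` and all but
finitely many `n`, for ALL integers `k ≠ 0` with `||k| - f_n(α)| ≤ c f_n(α) ^ θ` all integral points `(x, y)` of
`y ^ 2 = x ^ 3 + k` satisfy `|x| > exp (|k| ^ (1 / 10000))`. The functions `v_n x`, `v_n > 0`, are starshaped on `(0, ∞)`, of exponent `τ` if `v` has exponent of convergence at most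
`τ`; the functions `x ^ (v_n)`, `v_n ≥ 1`, are starshaped on `(1, ∞)`, of exponent `0` if the sums of `exp (-t v_n)` converge
for `t > 0`; and the iterates of a map `g` with `g(x) > x` for `x > a` and `g(x) / x` nondecreasing are starshaped on
`(a, ∞)`, of exponent `0`. -/
theorem result :
    (∀ (a : ℝ) (f : ℕ → ℝ → ℝ) (τ θ : ℝ), Starshaped a f → 0 ≤ τ → ExpLe a f τ → θ < 1 →
      ∃ E : Set ℝ, dimH E ≤ ENNReal.ofReal ((99 / 100 + τ) / (1 - θ)) ∧ ∀ α : ℝ, a < α → α ∉ E → ∀ c : ℝ,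
        ∃ n₀ : ℕ, ∀ n : ℕ, n₀ ≤ n → ∀ k : ℤ, k ≠ 0 → |(|k| : ℝ) - f n α| ≤ c * (f n α) ^ θ →
          ∀ x y : ℤ, y ^ 2 = x ^ 3 + k → Real.exp (|(k : ℝ)| ^ ((1 : ℝ) / 10000)) < |(x : ℝ)|) ∧
    (∀ (v : ℕ → ℝ) (τ : ℝ), (∀ n, 0 < v n) → (∀ t : ℝ, τ < t → Summable (fun n : ℕ => (v n) ^ (-t))) →
      Starshaped 0 (fun n x => v n * x) ∧ ExpLe 0 (fun n x => v n * x) τ) ∧
    (∀ v : ℕ → ℝ, (∀ n, 1 ≤ v n) → (∀ t : ℝ, 0 < t → Summable fun n : ℕ => Real.exp (-(t * v n))) →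
      Starshaped 1 (fun n x => x ^ (v n)) ∧ ExpLe 1 (fun n x => x ^ (v n)) 0) ∧
    (∀ (a : ℝ) (g : ℝ → ℝ), 0 ≤ a → (∀ x y : ℝ, a < x → x ≤ y → g x / x ≤ g y / y) → (∀ x : ℝ, a < x → x < g x) →
      Starshaped a (fun n x => g^[n] x) ∧ ExpLe a (fun n x => g^[n] x) 0) := by
  refine ⟨fun a f τ θ hf hτ hE hθ1 => ?_, Pool.Agent.R482.ST.ex_mul, Pool.Agent.R482.ST.ex_pow,
    Pool.Agent.R482.ST.ex_orbit⟩
  obtain ⟨E, h2, h3⟩ := Pool.Agent.R482.ST.windows Exc (fun k : ℤ => |(k : ℝ)|) hf hτ hE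
    (s := 99 / 100) (by norm_num) hθ1 count
  refine ⟨E, h2, fun α hα hαE c => ?_⟩
  obtain ⟨n₀, hn⟩ := h3 α hα hαE c
  refine ⟨n₀, fun n hn1 k hk hw x y hxy => ?_⟩
  by_contra hcon
  push Not at hcon
  exact absurd (hn n hn1 k ⟨hk, x, y, hxy, hcon⟩) (not_lt.2 hw)

end Pool.Agent.Results.MP_f2148a_nt.StarshapedMordell
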